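import Pool.Agent.TH83.SQ.DilMain

/-!
Sums with dilates by the divisors of a squarefree number with many prime factors.
-/

set_option autoImplicit false

namespace Pool.Agent.TH83.SQ

open Finset
open scoped Pointwise Classical

/-- some dilate by a divisor has a large sum set -/
theorem dilates (δ θ : ℝ) (hδ : 0 < δ) (hθ : 0 < θ) :
    ∃ C : ℝ, ∀ P : Finset ℕ, (∀ q ∈ P, q.Prime) → ∀ X B : Finset ℤ, X.Nonempty → B.Nonempty →
      θ * (Real.log X.card + Real.log B.card) ≤ P.card →
      ∃ s ⊆ P, (1 - δ) * (Real.log X.card + Real.log B.card) - C ≤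
        Real.log ((dil (pr s) X + B).card : ℝ) := by
  obtain ⟨c⟩ := exists_cst (min δ (1 / 2)) (4 / θ) (by positivity)
  refine ⟨Real.log c.K₀ + (4 / θ / 2) * Real.exp ((c.j₀ : ℝ) / 2), ?_⟩
  intro P hP X B hX hB hS
  have hδ1 : min δ (1 / 2) < 1 := lt_of_le_of_lt (min_le_right _ _) (by norm_num)
  have h := tau_ge (by positivity : 0 < min δ (1 / 2)) hδ1 (by positivity : 0 < 4 / θ) c P hP X B
    hX hB
  by_contra hcon
  push Not at hcon
  have hS0 : 0 ≤ Sz X B := Sz_nonneg X B
  have h1 : (1 - δ) * (Real.log X.card + Real.log B.card) -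
      (Real.log c.K₀ + (4 / θ / 2) * Real.exp ((c.j₀ : ℝ) / 2)) ≤
      bd (min δ (1 / 2)) (4 / θ) c P.card (Sz X B) := by
    unfold bd
    have h2 : Real.exp (2 / (4 / θ) * Sz X B - (P.card : ℝ) / 2) ≤ 1 := by
      rw [Real.exp_le_one_iff]
      have h3 : 2 / (4 / θ) * Sz X B = θ * (Real.log X.card + Real.log B.card) / 2 := by
        unfold Sz
        field_simp; ring
      rw [h3]
      linarith
    have h4 : (4 / θ / 2) * Real.exp ((c.j₀ : ℝ) / 2) *
        Real.exp (2 / (4 / θ) * Sz X B - (P.card : ℝ) / 2) ≤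
        (4 / θ / 2) * Real.exp ((c.j₀ : ℝ) / 2) * 1 :=
      mul_le_mul_of_nonneg_left h2 (by positivity)
    have h5 : (1 - δ) * Sz X B ≤ (1 - min δ (1 / 2)) * Sz X B :=
      mul_le_mul_of_nonneg_right (by have := min_le_left δ (1 / 2); linarith) hS0
    have h6 : Sz X B = Real.log X.card + Real.log B.card := rfl
    rw [← h6]
    linarith
  have h7 : tau P X B < (1 - δ) * (Real.log X.card + Real.log B.card) -
      (Real.log c.K₀ + (4 / θ / 2) * Real.exp ((c.j₀ : ℝ) / 2)) := by
    unfold tau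
    rw [div_lt_iff₀ (by positivity)]
    have h8 : ∑ s ∈ P.powerset, Real.log ((dil (pr s) X + B).card : ℝ) <
        ∑ s ∈ P.powerset, ((1 - δ) * (Real.log X.card + Real.log B.card) -
          (Real.log c.K₀ + (4 / θ / 2) * Real.exp ((c.j₀ : ℝ) / 2))) :=
      Finset.sum_lt_sum_of_nonempty ⟨∅, by simp⟩ fun s hs => hcon s (Finset.mem_powerset.1 hs)
    rw [Finset.sum_const, Finset.card_powerset, nsmul_eq_mul] at h8
    push_cast at h8
    linarith
  linarith

end Pool.Agent.TH83.SQ
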