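import Mathlib

/-!
Definitions for sums with dilates by divisors, and for re-splitting of tuples of finite sets.
-/

set_option autoImplicit false

namespace Pool.Agent.TH83.SQ

open Finset
open scoped Pointwise

/-- the elements of `X` congruent to `t` modulo `Q` -/
def cls (Q : ℤ) (X : Finset ℤ) (t : ℤ) : Finset ℤ := X.filter fun x => Q ∣ x - t

/-- the dilate `d X` -/
def dil (d : ℤ) (X : Finset ℤ) : Finset ℤ := X.image fun x => d * x

/-- the integer `∏ s` -/
def pr (s : Finset ℕ) : ℤ := ∏ q ∈ s, (q : ℤ)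

/-- the mean over `s ⊆ P` of `log |(∏ s) X + B|` -/
noncomputable def tau (P : Finset ℕ) (X B : Finset ℤ) : ℝ :=
  (∑ s ∈ P.powerset, Real.log ((dil (pr s) X + B).card : ℝ)) / 2 ^ P.card

/-- the sum of `k` sets, as a multiset -/
def sg {k : ℕ} (y : Fin k → Finset ℕ) : Multiset ℕ := ∑ i, (y i).val

/-- the `k`-tuples of members of `A` -/
def tup (k : ℕ) (A : Finset (Finset ℕ)) : Finset (Fin k → Finset ℕ) :=
  Fintype.piFinset fun _ => A

/-- the `k`-tuples of members of `A` with the same sum as `x` -/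
def rep {k : ℕ} (A : Finset (Finset ℕ)) (x : Fin k → Finset ℕ) : Finset (Fin k → Finset ℕ) :=
  (tup k A).filter fun y => sg y = sg x

/-- the set `π` is split trivially by the tuple `y` (up to fewer than `u` elements) -/
def Triv {k : ℕ} (u : ℝ) (π : Finset ℕ) (y : Fin k → Finset ℕ) : Prop :=
  ∃ j, ((π \ y j).card : ℝ) < u ∧ ∀ j', j' ≠ j → ((π ∩ y j').card : ℝ) < u

end Pool.Agent.TH83.SQ
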