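import Pool.Agent.TH83.SQ.Parts

/-!
Sums with dilates by the divisors of a number with many prime factors.
-/

set_option autoImplicit false

namespace Pool.Agent.TH83.SQ

open Finset
open scoped Pointwise

/-- `log ((i+1)(i+2))` -/
noncomputable def psi (i : ℕ) : ℝ := Real.log (((i : ℝ) + 1) * (i + 2))

theorem psi_le (a : ℝ) (ha : 0 < a) : ∃ D : ℝ, 0 ≤ D ∧ ∀ i : ℕ, psi i ≤ a * i + D := by
  refine ⟨max 0 (2 * a + 2 * Real.log (2 / a)), le_max_left _ _, fun i => ?_⟩
  have hi : (0 : ℝ) ≤ i := Nat.cast_nonneg i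
  have h1 : psi i ≤ 2 * Real.log (i + 2) := by
    unfold psi
    rw [Real.log_mul (by positivity) (by positivity)]
    have := Real.log_le_log (by positivity : (0 : ℝ) < i + 1) (by linarith : (i : ℝ) + 1 ≤ i + 2)
    linarith
  have h2 : Real.log ((a / 2) * (i + 2)) ≤ (a / 2) * (i + 2) - 1 :=
    Real.log_le_sub_one_of_pos (by positivity)
  rw [Real.log_mul (by positivity) (by positivity)] at h2
  have h3 : Real.log (2 / a) = - Real.log (a / 2) := by
    rw [← Real.log_inv, inv_div]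
  have h4 := le_max_right 0 (2 * a + 2 * Real.log (2 / a))
  rw [h3] at h4
  rw [h3]
  nlinarith

theorem cls_sub (Q : ℤ) (X : Finset ℤ) (t : ℤ) : cls Q X t ⊆ X := Finset.filter_subset _ _

theorem self_mem_cls (Q : ℤ) {X : Finset ℤ} {t : ℤ} (ht : t ∈ X) : t ∈ cls Q X t := by
  simp [cls, ht]

theorem cls_nonempty (Q : ℤ) {X : Finset ℤ} {t : ℤ} (ht : t ∈ X) : (cls Q X t).Nonempty :=
  ⟨t, self_mem_cls Q ht⟩

theorem card_dil {d : ℤ} (hd : d ≠ 0) (X : Finset ℤ) : (dil d X).card = X.card :=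
  Finset.card_image_of_injective _ (mul_right_injective₀ hd)

theorem dil_nonempty {d : ℤ} {X : Finset ℤ} (hX : X.Nonempty) : (dil d X).Nonempty :=
  hX.image _

theorem tau_nonneg (P : Finset ℕ) (X B : Finset ℤ) : 0 ≤ tau P X B := by
  unfold tau
  apply div_nonneg _ (by positivity)
  exact Finset.sum_nonneg fun s _ => Real.log_natCast_nonneg _

/-- the classes of the representatives are disjoint -/
theorem sum_cls_le {Q : ℤ} {X T : Finset ℤ} (hTi : ∀ t ∈ T, ∀ t' ∈ T, Q ∣ t - t' → t = t') :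
    ∑ t ∈ T, (cls Q X t).card ≤ X.card := by
  rw [← Finset.card_biUnion]
  · apply Finset.card_le_card
    intro x hx
    obtain ⟨t, _, ht⟩ := Finset.mem_biUnion.1 hx
    exact cls_sub _ _ _ ht
  · intro t ht t' ht' hne
    show Disjoint (cls Q X t) (cls Q X t')
    rw [Finset.disjoint_left]
    intro x hx hx'
    apply hne
    apply hTi t ht t' ht'
    have h1 := (Finset.mem_filter.1 hx).2
    have h2 := (Finset.mem_filter.1 hx').2
    have : t - t' = (x - t') - (x - t) := by ring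
    rw [this]
    exact dvd_sub h2 h1

/-- the facts on a selection in logarithmic form -/
theorem sel_log {Q : ℤ} {X : Finset ℤ} (hX : X.Nonempty) {i : ℕ} {T : Finset ℤ} (hT : T ⊆ X)
    (hTn : T.Nonempty)
    (hTi : ∀ t ∈ T, ∀ t' ∈ T, Q ∣ t - t' → t = t')
    (h1 : ∀ t ∈ T, X.card ≤ 2 ^ (i + 1) * (cls Q X t).card ∧ 2 ^ i * (cls Q X t).card ≤ X.card)
    (h2 : 2 ^ i ≤ T.card * ((i + 1) * (i + 2))) :
    (∀ t ∈ T, Real.log X.card - (i + 1) * Real.log 2 ≤ Real.log (cls Q X t).card ∧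
      Real.log (cls Q X t).card ≤ Real.log X.card - i * Real.log 2) ∧
    i * Real.log 2 - psi i ≤ Real.log T.card ∧ T.card ≤ 2 ^ (i + 1) := by
  have cX : (0 : ℝ) < X.card := by exact_mod_cast hX.card_pos
  have cT : (0 : ℝ) < T.card := by exact_mod_cast hTn.card_pos
  refine ⟨fun t ht => ?_, ?_, ?_⟩
  · have cc : (0 : ℝ) < (cls Q X t).card := by
      exact_mod_cast (cls_nonempty Q (hT ht)).card_pos
    obtain ⟨a1, a2⟩ := h1 t ht
    constructor
    · have h3 : (X.card : ℝ) ≤ 2 ^ (i + 1) * (cls Q X t).card := by exact_mod_cast a1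
      have h4 := Real.log_le_log cX h3
      rw [Real.log_mul (by positivity) cc.ne', Real.log_pow] at h4
      push_cast at h4
      linarith
    · have h3 : (2 : ℝ) ^ i * (cls Q X t).card ≤ X.card := by exact_mod_cast a2
      have h4 := Real.log_le_log (by positivity) h3
      rw [Real.log_mul (by positivity) cc.ne', Real.log_pow] at h4
      linarith
  · have h3 : (2 : ℝ) ^ i ≤ T.card * (((i : ℝ) + 1) * (i + 2)) := by exact_mod_cast h2
    have h4 := Real.log_le_log (by positivity) h3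
    rw [Real.log_mul cT.ne' (by positivity), Real.log_pow] at h4
    unfold psi
    linarith
  · have h3 : T.card * X.card ≤ 2 ^ (i + 1) * X.card := by
      calc T.card * X.card = ∑ _t ∈ T, X.card := by rw [Finset.sum_const, smul_eq_mul]
        _ ≤ ∑ t ∈ T, 2 ^ (i + 1) * (cls Q X t).card := Finset.sum_le_sum fun t ht => (h1 t ht).1
        _ = 2 ^ (i + 1) * ∑ t ∈ T, (cls Q X t).card := by rw [Finset.mul_sum]
        _ ≤ 2 ^ (i + 1) * X.card := Nat.mul_le_mul_left _ (sum_cls_le hTi)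
    exact Nat.le_of_mul_le_mul_right h3 hX.card_pos

theorem avg_ge {ι : Type*} {U : Finset ι} (hU : U.Nonempty) {f : ι → ℝ} {c : ℝ}
    (h : ∀ t ∈ U, c ≤ f t) : c ≤ (∑ t ∈ U, f t) / U.card := by
  have cU : (0 : ℝ) < U.card := by exact_mod_cast hU.card_pos
  rw [le_div_iff₀ cU]
  calc c * U.card = ∑ _t ∈ U, c := by rw [Finset.sum_const, nsmul_eq_mul, mul_comm]
    _ ≤ _ := Finset.sum_le_sum h

theorem exp_num : (1 + Real.exp (-2)) / 2 ≤ Real.exp (-(1 / 2)) := by
  have h1 : Real.exp 1 < 2.7182818286 := Real.exp_one_lt_d9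
  have h2 : (2.7182818283 : ℝ) < Real.exp 1 := Real.exp_one_gt_d9
  have h3 : Real.exp (-2) ≤ 1 / 7 := by
    rw [Real.exp_neg, one_div]
    apply inv_anti₀ (by norm_num)
    have : Real.exp 2 = Real.exp 1 * Real.exp 1 := by rw [← Real.exp_add]; norm_num
    rw [this]
    nlinarith
  have h4 : Real.exp (1 / 2) ≤ 5 / 3 := by
    have h5 : Real.exp (1 / 2) * Real.exp (1 / 2) = Real.exp 1 := by
      rw [← Real.exp_add]; norm_num
    have h6 := Real.exp_pos (1 / 2 : ℝ)
    by_contra hcon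
    push Not at hcon
    nlinarith
  have h5 : (3 / 5 : ℝ) ≤ Real.exp (-(1 / 2)) := by
    rw [Real.exp_neg]
    have := inv_anti₀ (Real.exp_pos (1 / 2 : ℝ)) h4
    calc (3 / 5 : ℝ) = (5 / 3)⁻¹ := by norm_num
      _ ≤ _ := this
  linarith

/-- the largest class -/
def mx (Q : ℤ) (X : Finset ℤ) : ℕ := X.sup fun x => (cls Q X x).card

theorem le_mx (Q : ℤ) {X : Finset ℤ} {x : ℤ} (hx : x ∈ X) : (cls Q X x).card ≤ mx Q X :=
  Finset.le_sup (f := fun x => (cls Q X x).card) hx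

theorem mx_le (Q : ℤ) (X : Finset ℤ) : mx Q X ≤ X.card :=
  Finset.sup_le fun x _ => Finset.card_le_card (cls_sub Q X x)

theorem exists_mx (Q : ℤ) {X : Finset ℤ} (hX : X.Nonempty) :
    ∃ x ∈ X, (cls Q X x).card = mx Q X := by
  obtain ⟨x, hx, h⟩ := Finset.exists_mem_eq_sup X hX fun x => (cls Q X x).card
  exact ⟨x, hx, h.symm⟩

theorem mx_one (X : Finset ℤ) : mx 1 X ≤ X.card := mx_le 1 X

theorem mx_one' {X : Finset ℤ} (hX : X.Nonempty) : mx 1 X = X.card := by
  apply le_antisymm (mx_le 1 X)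
  obtain ⟨x, hx⟩ := hX
  refine le_trans (le_of_eq ?_) (le_mx 1 hx)
  unfold cls
  rw [Finset.filter_true_of_mem fun y _ => one_dvd _]

/-- for a large modulus all the classes are singletons -/
theorem mx_large {p : ℕ} (hp : 2 ≤ p) (X : Finset ℤ) : ∃ J₀ : ℕ, ∀ J, J₀ ≤ J →
    mx ((p : ℤ) ^ J) X ≤ 1 := by
  obtain ⟨M, hM⟩ : ∃ M : ℕ, ∀ x ∈ X, ∀ y ∈ X, (x - y).natAbs ≤ M := by
    refine ⟨(X ×ˢ X).sup fun w => (w.1 - w.2).natAbs, fun x hx y hy => ?_⟩
    exact Finset.le_sup (f := fun w : ℤ × ℤ => (w.1 - w.2).natAbs)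
      (Finset.mem_product.2 ⟨hx, hy⟩ : (x, y) ∈ X ×ˢ X)
  refine ⟨M + 1, fun J hJ => Finset.sup_le fun x hx => ?_⟩
  rw [Finset.card_le_one]
  have key : ∀ y ∈ cls ((p : ℤ) ^ J) X x, y = x := by
    intro y hy
    obtain ⟨hy1, hy2⟩ := Finset.mem_filter.1 hy
    by_contra hne
    have h1 : (p ^ J) ∣ (y - x).natAbs := by
      have := Int.natAbs_dvd_natAbs.2 hy2
      rwa [Int.natAbs_pow, Int.natAbs_natCast] at this
    have h2 := Nat.le_of_dvd (Int.natAbs_pos.2 (sub_ne_zero.2 hne)) h1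
    have h3 := hM y hy1 x hx
    have h4 : J < p ^ J := Nat.lt_pow_self (by omega)
    omega
  intro y hy z hz
  rw [key y hy, key z hz]

end Pool.Agent.TH83.SQ
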