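import Pool.Agent.TH83.SQ.Dil

/-!
Sums with dilates by the divisors of a number with many prime factors: the induction.
-/

set_option autoImplicit false

namespace Pool.Agent.TH83.SQ

open Finset
open scoped Pointwise

/-- the constants -/
structure Cst (δ R : ℝ) where
  K₀ : ℕ
  MB : ℕ
  MX : ℕ
  j₀ : ℕ
  K₀2 : 2 ≤ K₀
  hK₀ : ∀ n m : ℕ, K₀ ≤ 2 ^ (n + m + 2) →
    2 * Real.log 2 + psi n + psi m ≤ δ / 2 * ((n + m) * Real.log 2) ∧ R ≤ (n + m) * Real.log 2
  hMB : ∀ i : ℕ, MB ≤ i → psi i + Real.log K₀ + Real.log 2 ≤ δ * (i * Real.log 2) ∧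
    R ≤ i * Real.log 2
  hMX : ∀ i : ℕ, MX ≤ i → psi i + Real.log 2 + (MB + 1) * Real.log 2 ≤ δ * (i * Real.log 2) ∧
    R ≤ i * Real.log 2
  hj₀ : 2 * ((2 : ℝ) ^ MX * 2 ^ MB) ^ 2 ≤ δ / 2 * j₀
  hj₀1 : 1 ≤ j₀

theorem exists_large (a b R : ℝ) (ha : 0 < a) : ∃ M : ℕ, ∀ i : ℕ, M ≤ i →
    b ≤ a * i ∧ R ≤ i * Real.log 2 := by
  have hl : 0 < Real.log 2 := Real.log_pos (by norm_num)
  obtain ⟨M₁, hM₁⟩ := exists_nat_ge (b / a)
  obtain ⟨M₂, hM₂⟩ := exists_nat_ge (R / Real.log 2)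
  refine ⟨max M₁ M₂, fun i hi => ⟨?_, ?_⟩⟩
  · have h1 : (M₁ : ℝ) ≤ i := by exact_mod_cast (le_max_left _ _).trans hi
    have h2 := hM₁.trans h1
    rw [div_le_iff₀ ha] at h2
    linarith
  · have h1 : (M₂ : ℝ) ≤ i := by exact_mod_cast (le_max_right _ _).trans hi
    have h2 := hM₂.trans h1
    rw [div_le_iff₀ hl] at h2
    linarith

theorem exists_cst (δ R : ℝ) (hδ : 0 < δ) : Nonempty (Cst δ R) := by
  have hl : 0 < Real.log 2 := Real.log_pos (by norm_num)
  obtain ⟨D, hD0, hD⟩ := psi_le (δ / 4 * Real.log 2) (by positivity)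
  obtain ⟨n₀, hn₀⟩ := exists_large (δ / 4 * Real.log 2) (2 * Real.log 2 + 2 * D) R (by positivity)
  set K₀ : ℕ := 2 ^ (n₀ + 2) with hK₀
  obtain ⟨D', hD'0, hD'⟩ := psi_le (δ / 2 * Real.log 2) (by positivity)
  obtain ⟨MB, hMB⟩ := exists_large (δ / 2 * Real.log 2) (D' + Real.log K₀ + Real.log 2) R
    (by positivity)
  obtain ⟨MX, hMX⟩ := exists_large (δ / 2 * Real.log 2)
    (D' + Real.log 2 + (MB + 1) * Real.log 2) R (by positivity)
  obtain ⟨j₀, hj₀⟩ := exists_nat_ge (2 * ((2 : ℝ) ^ MX * 2 ^ MB) ^ 2 / (δ / 2))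
  refine ⟨⟨K₀, MB, MX, max 1 j₀, ?_, ?_, ?_, ?_, ?_, le_max_left _ _⟩⟩
  · calc 2 = 2 ^ 1 := by norm_num
      _ ≤ 2 ^ (n₀ + 2) := Nat.pow_le_pow_right (by norm_num) (by omega)
  · intro n m h
    have h1 : n₀ ≤ n + m := by
      have := (Nat.pow_le_pow_iff_right (by norm_num : 1 < 2)).1 h
      omega
    obtain ⟨h2, h3⟩ := hn₀ (n + m) h1
    push_cast at h2 h3
    refine ⟨?_, h3⟩
    have h4 := hD n
    have h5 := hD m
    nlinarith
  · intro i hi
    obtain ⟨h2, h3⟩ := hMB i hi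
    refine ⟨?_, h3⟩
    have h4 := hD' i
    nlinarith
  · intro i hi
    obtain ⟨h2, h3⟩ := hMX i hi
    refine ⟨?_, h3⟩
    have h4 := hD' i
    nlinarith
  · rw [div_le_iff₀ (by positivity)] at hj₀
    have h1 : (j₀ : ℝ) ≤ ((max 1 j₀ : ℕ) : ℝ) := by exact_mod_cast le_max_right _ _
    calc 2 * ((2 : ℝ) ^ MX * 2 ^ MB) ^ 2 ≤ j₀ * (δ / 2) := hj₀
      _ = δ / 2 * j₀ := by ring
      _ ≤ _ := mul_le_mul_of_nonneg_left h1 (by positivity)

/-- `log |X| + log |B|` -/
noncomputable def Sz (X B : Finset ℤ) : ℝ := Real.log X.card + Real.log B.card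

theorem Sz_nonneg (X B : Finset ℤ) : 0 ≤ Sz X B :=
  add_nonneg (Real.log_natCast_nonneg _) (Real.log_natCast_nonneg _)

/-- the lower bound for `tau` -/
noncomputable def bd (δ R : ℝ) (c : Cst δ R) (j : ℕ) (S : ℝ) : ℝ :=
  (1 - δ) * S - Real.log c.K₀ - (R / 2) * Real.exp ((c.j₀ : ℝ) / 2) *
    Real.exp (2 / R * S - (j : ℝ) / 2)

theorem bd_small {δ R : ℝ} (hδ : 0 < δ) (hR : 0 < R) (c : Cst δ R) {j : ℕ} (hj : j ≤ c.j₀)
    {S : ℝ} (hS : 0 ≤ S) : bd δ R c j S ≤ 0 := by
  unfold bd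
  have h1 : 0 ≤ Real.log c.K₀ := Real.log_natCast_nonneg _
  have h2 : S ≤ (R / 2) * Real.exp ((c.j₀ : ℝ) / 2) * Real.exp (2 / R * S - (j : ℝ) / 2) := by
    rw [mul_assoc, ← Real.exp_add]
    have h3 : 2 / R * S ≤ Real.exp ((c.j₀ : ℝ) / 2 + (2 / R * S - (j : ℝ) / 2)) := by
      have h4 : (j : ℝ) ≤ c.j₀ := by exact_mod_cast hj
      have h5 := Real.add_one_le_exp ((c.j₀ : ℝ) / 2 + (2 / R * S - (j : ℝ) / 2))
      linarith
    calc S = (R / 2) * (2 / R * S) := by field_simp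
      _ ≤ _ := mul_le_mul_of_nonneg_left h3 (by positivity)
  have h3 : 0 ≤ δ * S := by positivity
  nlinarith

theorem bd_low {δ R : ℝ} (hδ : 0 < δ) (hR : 0 < R) (c : Cst δ R) {j : ℕ}
    {S : ℝ} (hS0 : 0 ≤ S) (hS : S ≤ Real.log c.K₀) : bd δ R c j S ≤ 0 := by
  unfold bd
  have h2 : 0 ≤ (R / 2) * Real.exp ((c.j₀ : ℝ) / 2) * Real.exp (2 / R * S - (j : ℝ) / 2) := by
    positivity
  have h3 : 0 ≤ δ * S := by positivity
  nlinarith

/-- combination of the two halves -/
theorem bd_comb {δ R : ℝ} (hR : 0 < R) (c : Cst δ R) {j : ℕ} {S S' g a b : ℝ}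
    (hS' : S' ≤ S - R) (hg : (1 - δ) * S ≤ g + (1 - δ) * S')
    (ha : bd δ R c j S ≤ a) (hb : g + bd δ R c j S' ≤ b) :
    bd δ R c (j + 1) S ≤ (a + b) / 2 := by
  unfold bd at *
  set A := (R / 2) * Real.exp ((c.j₀ : ℝ) / 2) with hA
  have hA0 : 0 ≤ A := by positivity
  have h1 : Real.exp (2 / R * S' - (j : ℝ) / 2) ≤
      Real.exp (-2) * Real.exp (2 / R * S - (j : ℝ) / 2) := by
    rw [← Real.exp_add]
    apply Real.exp_le_exp.2
    have h2 : 2 / R * S' ≤ 2 / R * (S - R) := mul_le_mul_of_nonneg_left hS' (by positivity)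
    have h3 : 2 / R * (S - R) = 2 / R * S - 2 := by field_simp
    linarith
  have h2 : Real.exp (2 / R * S - ((j + 1 : ℕ) : ℝ) / 2) =
      Real.exp (-(1 / 2)) * Real.exp (2 / R * S - (j : ℝ) / 2) := by
    rw [← Real.exp_add]
    congr 1
    push_cast; ring
  rw [h2]
  have h3 := exp_num
  set E := Real.exp (2 / R * S - (j : ℝ) / 2) with hE
  have hE0 : 0 < E := Real.exp_pos _
  have h4 : A * Real.exp (2 / R * S' - (j : ℝ) / 2) ≤ A * (Real.exp (-2) * E) :=
    mul_le_mul_of_nonneg_left h1 hA0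
  have h5 : A * E * ((1 + Real.exp (-2)) / 2) ≤ A * E * Real.exp (-(1 / 2)) :=
    mul_le_mul_of_nonneg_left h3 (by positivity)
  nlinarith

theorem bd_mono {δ R : ℝ} (hR : 0 < R) (c : Cst δ R) {j : ℕ} {S S' T : ℝ}
    (h1 : (1 - δ) * S' ≤ (1 - δ) * S) (h2 : S ≤ T) :
    (1 - δ) * S' - Real.log c.K₀ - (R / 2) * Real.exp ((c.j₀ : ℝ) / 2) *
      Real.exp (2 / R * T - (j : ℝ) / 2) ≤ bd δ R c j S := by
  unfold bd
  have h3 : Real.exp (2 / R * S - (j : ℝ) / 2) ≤ Real.exp (2 / R * T - (j : ℝ) / 2) := by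
    apply Real.exp_le_exp.2
    have := mul_le_mul_of_nonneg_left h2 (by positivity : 0 ≤ 2 / R)
    linarith
  have h4 := mul_le_mul_of_nonneg_left h3
    (by positivity : 0 ≤ (R / 2) * Real.exp ((c.j₀ : ℝ) / 2))
  linarith

theorem tau_ge {δ R : ℝ} (hδ : 0 < δ) (hδ1 : δ < 1) (hR : 0 < R) (c : Cst δ R) :
    ∀ P : Finset ℕ, (∀ q ∈ P, q.Prime) → ∀ X B : Finset ℤ, X.Nonempty → B.Nonempty →
      bd δ R c P.card (Sz X B) ≤ tau P X B := by
  intro P
  have hl : 0 < Real.log 2 := Real.log_pos (by norm_num)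
  induction P using Finset.induction_on_max with
  | empty =>
    intro _ X B hX hB
    exact (bd_small hδ hR c (by simp) (Sz_nonneg X B)).trans (tau_nonneg _ _ _)
  | insert p P hmax ih =>
    intro hprime X B hX hB
    have hp : p.Prime := hprime p (Finset.mem_insert_self _ _)
    have hP : ∀ q ∈ P, q.Prime := fun q hq => hprime q (Finset.mem_insert_of_mem hq)
    have hpP : p ∉ P := fun h => lt_irrefl _ (hmax p h)
    rw [Finset.card_insert_of_notMem hpP]
    by_cases hj : P.card < c.j₀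
    · exact (bd_small hδ hR c hj (Sz_nonneg X B)).trans (tau_nonneg _ _ _)
    push Not at hj
    by_cases hS : Sz X B ≤ Real.log c.K₀
    · exact (bd_low hδ hR c (Sz_nonneg X B) hS).trans (tau_nonneg _ _ _)
    push Not at hS
    have hK0 : (0 : ℝ) < c.K₀ := by
      have := c.K₀2
      exact_mod_cast (by omega : 0 < c.K₀)
    have cX : (0 : ℝ) < X.card := by exact_mod_cast hX.card_pos
    have cB : (0 : ℝ) < B.card := by exact_mod_cast hB.card_pos
    have hbig : c.K₀ ≤ X.card * B.card := by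
      have h1 : Real.log c.K₀ < Real.log (X.card * B.card) := by
        rw [Real.log_mul cX.ne' cB.ne']; exact hS
      have h2 := (Real.log_lt_log_iff hK0 (by positivity)).1 h1
      exact_mod_cast h2.le
    -- the level
    have hex : ∃ J : ℕ, mx ((p : ℤ) ^ J) X * mx ((p : ℤ) ^ J) B * c.K₀ ≤ X.card * B.card := by
      obtain ⟨J₁, h1⟩ := mx_large hp.two_le X
      obtain ⟨J₂, h2⟩ := mx_large hp.two_le B
      refine ⟨max J₁ J₂, ?_⟩
      calc mx ((p : ℤ) ^ max J₁ J₂) X * mx ((p : ℤ) ^ max J₁ J₂) B * c.K₀ ≤ 1 * 1 * c.K₀ :=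
            Nat.mul_le_mul_right _ (Nat.mul_le_mul (h1 _ (le_max_left _ _))
              (h2 _ (le_max_right _ _)))
        _ ≤ _ := by rw [one_mul, one_mul]; exact hbig
    obtain ⟨I, hI, hI'⟩ : ∃ I : ℕ,
        mx ((p : ℤ) ^ (I + 1)) X * mx ((p : ℤ) ^ (I + 1)) B * c.K₀ ≤ X.card * B.card ∧
        X.card * B.card < mx ((p : ℤ) ^ I) X * mx ((p : ℤ) ^ I) B * c.K₀ := by
      classical
      have h1 := Nat.find_spec hex
      have h2 : Nat.find hex ≠ 0 := by
        intro h0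
        rw [h0, pow_zero, mx_one' hX, mx_one' hB] at h1
        have h3 : 0 < X.card * B.card := Nat.mul_pos hX.card_pos hB.card_pos
        have := c.K₀2
        nlinarith
      obtain ⟨I, hIe⟩ := Nat.exists_eq_succ_of_ne_zero h2
      refine ⟨I, ?_, ?_⟩
      · rw [hIe] at h1; exact h1
      · have := Nat.find_min hex (m := I) (by rw [hIe]; exact Nat.lt_succ_self I)
        exact not_le.1 this
    -- the heavy class of `X`
    obtain ⟨x₀, hx₀, hx₀m⟩ := exists_mx ((p : ℤ) ^ I) hX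
    have hheavy : X.card ≤ (cls ((p : ℤ) ^ I) X x₀).card * c.K₀ := by
      rw [hx₀m]
      by_contra hcon
      push Not at hcon
      have h1 := mx_le ((p : ℤ) ^ I) B
      have h2 : mx ((p : ℤ) ^ I) X * mx ((p : ℤ) ^ I) B * c.K₀ ≤
          mx ((p : ℤ) ^ I) X * B.card * c.K₀ :=
        Nat.mul_le_mul_right _ (Nat.mul_le_mul_left _ h1)
      have h3 : mx ((p : ℤ) ^ I) X * B.card * c.K₀ = mx ((p : ℤ) ^ I) X * c.K₀ * B.card := by ring
      have h4 : mx ((p : ℤ) ^ I) X * c.K₀ * B.card ≤ X.card * B.card :=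
        Nat.mul_le_mul_right _ hcon.le
      omega
    -- the selections
    obtain ⟨iX, T, hT, hTn, hTi, hT1, hT2⟩ := sel ((p : ℤ) ^ (I + 1)) X hX
    obtain ⟨iB, U, hU, hUn, hUi, hU1, hU2⟩ := sel ((p : ℤ) ^ (I + 1)) B hB
    obtain ⟨hTl, hTk, hTc⟩ := sel_log hX hT hTn hTi hT1 hT2
    obtain ⟨hUl, hUk, hUc⟩ := sel_log hB hU hUn hUi hU1 hU2
    have hsum : c.K₀ ≤ 2 ^ (iX + iB + 2) := by
      obtain ⟨t, ht⟩ := hTn
      obtain ⟨v, hv⟩ := hUn
      have h1 := (hT1 t ht).1.trans (Nat.mul_le_mul_left _ (le_mx _ (hT ht)))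
      have h2 := (hU1 v hv).1.trans (Nat.mul_le_mul_left _ (le_mx _ (hU hv)))
      have h3 : X.card * B.card ≤ 2 ^ (iX + iB + 2) *
          (mx ((p : ℤ) ^ (I + 1)) X * mx ((p : ℤ) ^ (I + 1)) B) := by
        calc X.card * B.card ≤ (2 ^ (iX + 1) * mx ((p : ℤ) ^ (I + 1)) X) *
              (2 ^ (iB + 1) * mx ((p : ℤ) ^ (I + 1)) B) := Nat.mul_le_mul h1 h2
          _ = _ := by ring
      have h4 : 0 < mx ((p : ℤ) ^ (I + 1)) X * mx ((p : ℤ) ^ (I + 1)) B := by
        rcases Nat.eq_zero_or_pos (mx ((p : ℤ) ^ (I + 1)) X * mx ((p : ℤ) ^ (I + 1)) B) with h | h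
        · rw [h, mul_zero] at h3
          have : 0 < X.card * B.card := Nat.mul_pos hX.card_pos hB.card_pos
          omega
        · exact h
      have h5 : mx ((p : ℤ) ^ (I + 1)) X * mx ((p : ℤ) ^ (I + 1)) B * c.K₀ ≤
          mx ((p : ℤ) ^ (I + 1)) X * mx ((p : ℤ) ^ (I + 1)) B * 2 ^ (iX + iB + 2) := by
        rw [mul_comm (mx _ X * mx _ B) (2 ^ _)]
        exact hI.trans h3
      exact Nat.le_of_mul_le_mul_left h5 h4
    obtain ⟨hnum, hRsum⟩ := c.hK₀ iX iB hsum
    have hδ' : 0 ≤ 1 - δ := by linarith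
    have hTc' : (T.card : ℝ) ≤ 2 ^ (iX + 1) := by exact_mod_cast hTc
    have hUc' : (U.card : ℝ) ≤ 2 ^ (iB + 1) := by exact_mod_cast hUc
    rw [tau_insert hpP]
    by_cases hiB : c.MB ≤ iB
    · -- the second summand has large residue entropy
      obtain ⟨hB1, hB2⟩ := c.hMB iB hiB
      have h0 := ih hP X B hX hB
      have hcI := caseI hp P X B I x₀ hx₀ U hU hUn hUi
      refine bd_comb hR c (S' := Sz X B - iB * Real.log 2) (g := Real.log U.card -
        (1 - δ) * (Real.log c.K₀ + Real.log 2)) (by linarith) ?_ h0 (le_trans ?_ hcI)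
      · have hk : 0 ≤ δ * (Real.log c.K₀ + Real.log 2) :=
          mul_nonneg hδ.le (add_nonneg (Real.log_natCast_nonneg _) hl.le)
        linarith
      · have h1 : ∀ t ∈ U, (1 - δ) * (Sz X B - Real.log c.K₀ - (iB + 1) * Real.log 2) -
            Real.log c.K₀ - (R / 2) * Real.exp ((c.j₀ : ℝ) / 2) *
            Real.exp (2 / R * (Sz X B - iB * Real.log 2) - (P.card : ℝ) / 2) ≤
            tau P (dil p (cls ((p : ℤ) ^ I) X x₀)) (cls ((p : ℤ) ^ (I + 1)) B t) := by
          intro t ht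
          obtain ⟨h2, h3⟩ := hUl t ht
          have hn1 : (cls ((p : ℤ) ^ I) X x₀).Nonempty := cls_nonempty _ hx₀
          have hp0 : (p : ℤ) ≠ 0 := by exact_mod_cast hp.ne_zero
          have h4 := ih hP (dil p (cls ((p : ℤ) ^ I) X x₀)) (cls ((p : ℤ) ^ (I + 1)) B t)
            (dil_nonempty hn1) (cls_nonempty _ (hU ht))
          refine le_trans ?_ h4
          have h5 : Sz (dil p (cls ((p : ℤ) ^ I) X x₀)) (cls ((p : ℤ) ^ (I + 1)) B t) =
              Real.log (cls ((p : ℤ) ^ I) X x₀).card +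
                Real.log (cls ((p : ℤ) ^ (I + 1)) B t).card := by
            unfold Sz
            rw [card_dil hp0]
          have cc : (0 : ℝ) < (cls ((p : ℤ) ^ I) X x₀).card := by exact_mod_cast hn1.card_pos
          have h6 : Real.log (cls ((p : ℤ) ^ I) X x₀).card ≤ Real.log X.card :=
            Real.log_le_log cc (by exact_mod_cast Finset.card_le_card (cls_sub _ _ _))
          have h7 : Real.log X.card ≤ Real.log (cls ((p : ℤ) ^ I) X x₀).card +
              Real.log c.K₀ := by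
            rw [← Real.log_mul cc.ne' hK0.ne']
            exact Real.log_le_log cX (by exact_mod_cast hheavy)
          apply bd_mono hR c
          · apply mul_le_mul_of_nonneg_left _ hδ'
            rw [h5]
            unfold Sz
            linarith
          · rw [h5]
            unfold Sz
            linarith
        have h2 := avg_ge hUn h1
        unfold bd
        nlinarith
    push Not at hiB
    by_cases hiX : c.MX ≤ iX
    · -- the first summand has large residue entropy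
      obtain ⟨hX1, hX2⟩ := c.hMX iX hiX
      have hp0 : (p : ℤ) ≠ 0 := by exact_mod_cast hp.ne_zero
      have h0 := ih hP (dil p X) B (dil_nonempty hX) hB
      have h0' : Sz (dil p X) B = Sz X B := by unfold Sz; rw [card_dil hp0]
      rw [h0'] at h0
      obtain ⟨b₀, hb₀⟩ := hUn
      have hcI := caseIIa hp P (fun q hq => ⟨hP q hq, (hmax q hq).ne⟩) X B (I + 1) T hT hTn hTi
        b₀ (hU hb₀)
      rw [add_comm (tau P X B)]
      have hiB' : (iB : ℝ) + 1 ≤ c.MB := by exact_mod_cast hiB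
      refine bd_comb hR c (S' := Sz X B - iX * Real.log 2) (g := Real.log T.card -
        (1 - δ) * ((c.MB + 1) * Real.log 2)) (by linarith) ?_ h0 (le_trans ?_ hcI)
      · have hk : 0 ≤ δ * (((c.MB : ℝ) + 1) * Real.log 2) := by positivity
        linarith
      · obtain ⟨h8, h9⟩ := hUl b₀ hb₀
        have h1 : ∀ t ∈ T, (1 - δ) * (Sz X B - (iX + 1) * Real.log 2 - (iB + 1) * Real.log 2) -
            Real.log c.K₀ - (R / 2) * Real.exp ((c.j₀ : ℝ) / 2) *
            Real.exp (2 / R * (Sz X B - iX * Real.log 2) - (P.card : ℝ) / 2) ≤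
            tau P (cls ((p : ℤ) ^ (I + 1)) X t) (cls ((p : ℤ) ^ (I + 1)) B b₀) := by
          intro t ht
          obtain ⟨h2, h3⟩ := hTl t ht
          have h4 := ih hP (cls ((p : ℤ) ^ (I + 1)) X t) (cls ((p : ℤ) ^ (I + 1)) B b₀)
            (cls_nonempty _ (hT ht)) (cls_nonempty _ (hU hb₀))
          refine le_trans ?_ h4
          have h10 : 0 ≤ iB * Real.log 2 := by positivity
          apply bd_mono hR c
          · apply mul_le_mul_of_nonneg_left _ hδ'
            unfold Sz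
            linarith
          · unfold Sz
            linarith
        have h2 := avg_ge hTn h1
        have h10 : (1 - δ) * ((iB + 1) * Real.log 2) ≤ (1 - δ) * (c.MB * Real.log 2) :=
          mul_le_mul_of_nonneg_left (mul_le_mul_of_nonneg_right hiB' hl.le) hδ'
        unfold bd
        nlinarith
    push Not at hiX
    · -- both small: generic dilates
      have hp0 : (p : ℤ) ≠ 0 := by exact_mod_cast hp.ne_zero
      have h0 := ih hP (dil p X) B (dil_nonempty hX) hB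
      have h0' : Sz (dil p X) B = Sz X B := by unfold Sz; rw [card_dil hp0]
      rw [h0'] at h0
      have hβ : 2 * ((T.card : ℝ) * U.card) ^ 2 ≤ δ / 2 * P.card := by
        have h1 : (2 : ℝ) ^ (iX + 1) ≤ 2 ^ c.MX :=
          pow_le_pow_right₀ (by norm_num) (by omega)
        have h2 : (2 : ℝ) ^ (iB + 1) ≤ 2 ^ c.MB :=
          pow_le_pow_right₀ (by norm_num) (by omega)
        have h3 : (T.card : ℝ) * U.card ≤ 2 ^ c.MX * 2 ^ c.MB :=
          mul_le_mul (hTc'.trans h1) (hUc'.trans h2) (by positivity) (by positivity)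
        have h4 : ((T.card : ℝ) * U.card) ^ 2 ≤ (2 ^ c.MX * 2 ^ c.MB) ^ 2 :=
          pow_le_pow_left₀ (by positivity) h3 2
        have h5 : (c.j₀ : ℝ) ≤ P.card := by exact_mod_cast hj
        have h6 := mul_le_mul_of_nonneg_left h5 (by positivity : 0 ≤ δ / 2)
        linarith [c.hj₀]
      have hcI := caseIIb hp P (fun q hq => ⟨hP q hq, hmax q hq⟩) X B (I + 1) T hT hTn hTi
        U hU hUn hUi (δ / 2) (by positivity) hβ
      rw [add_comm (tau P X B)]
      refine bd_comb hR c (S' := Sz X B - (iX + iB) * Real.log 2)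
        (g := (1 - δ / 2) * (Real.log T.card + Real.log U.card) - (1 - δ) * (2 * Real.log 2))
        (by linarith) ?_ h0 (le_trans ?_ hcI)
      · have hx1 : (1 - δ / 2) * (iX * Real.log 2 - psi iX + (iB * Real.log 2 - psi iB)) ≤
            (1 - δ / 2) * (Real.log T.card + Real.log U.card) :=
          mul_le_mul_of_nonneg_left (by linarith) (by linarith)
        have hps1 : 0 ≤ psi iX := Real.log_nonneg (by nlinarith [(Nat.cast_nonneg iX : (0:ℝ) ≤ iX)])
        have hps2 : 0 ≤ psi iB := Real.log_nonneg (by nlinarith [(Nat.cast_nonneg iB : (0:ℝ) ≤ iB)])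
        nlinarith
      · have h1 : ∀ t ∈ T, (1 - δ) * (Sz X B - (iX + iB + 2) * Real.log 2) -
            Real.log c.K₀ - (R / 2) * Real.exp ((c.j₀ : ℝ) / 2) *
            Real.exp (2 / R * (Sz X B - (iX + iB) * Real.log 2) - (P.card : ℝ) / 2) ≤
            (∑ v ∈ U, tau P (cls ((p : ℤ) ^ (I + 1)) X t) (cls ((p : ℤ) ^ (I + 1)) B v)) /
              U.card := by
          intro t ht
          obtain ⟨h2, h3⟩ := hTl t ht
          apply avg_ge hUn
          intro v hv
          obtain ⟨h8, h9⟩ := hUl v hv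
          have h4 := ih hP (cls ((p : ℤ) ^ (I + 1)) X t) (cls ((p : ℤ) ^ (I + 1)) B v)
            (cls_nonempty _ (hT ht)) (cls_nonempty _ (hU hv))
          refine le_trans ?_ h4
          apply bd_mono hR c
          · apply mul_le_mul_of_nonneg_left _ hδ'
            unfold Sz
            linarith
          · unfold Sz
            linarith
        have h2 := avg_ge hTn h1
        have h3 : (∑ t ∈ T, (∑ v ∈ U, tau P (cls ((p : ℤ) ^ (I + 1)) X t)
            (cls ((p : ℤ) ^ (I + 1)) B v)) / U.card) / T.card =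
            (∑ t ∈ T, ∑ v ∈ U, tau P (cls ((p : ℤ) ^ (I + 1)) X t)
              (cls ((p : ℤ) ^ (I + 1)) B v)) / (T.card * U.card) := by
          rw [← Finset.sum_div, div_div, mul_comm (U.card : ℝ)]
        rw [h3] at h2
        unfold bd
        nlinarith

end Pool.Agent.TH83.SQ
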