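import Pool.Agent.TH83.SQ.Defs

/-!
Random fragmentation of a member of a family of finite sets.
-/

set_option autoImplicit false

namespace Pool.Agent.TH83.SQ

open Finset

/-- a finite experiment whose root is a uniformly random member of `A`, whose leaves are
independent uniformly random members of `A`, and whose pieces (one for each leaf, contained in the
leaf and in the root) cover the root -/
structure Expt (A : Finset (Finset ℕ)) where
  Ω : Type
  Λ : Type
  iΩ : Fintype Ω
  iΛ : Fintype Λ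
  w : Ω → ℝ
  root : Ω → Finset ℕ
  leaf : Ω → Λ → Finset ℕ
  piece : Ω → Λ → Finset ℕ
  w_nonneg : ∀ ω, 0 ≤ w ω
  root_mem : ∀ ω, root ω ∈ A
  root_law : ∀ f : Finset ℕ → ℝ, ∑ ω, w ω * f (root ω) = (∑ a ∈ A, f a) / A.card
  leaf_law : ∀ h : Λ → Finset ℕ → ℝ,
    ∑ ω, w ω * ∏ l, h l (leaf ω l) = ∏ l, ((∑ a ∈ A, h l a) / A.card)
  piece_leaf : ∀ ω l, piece ω l ⊆ leaf ω l
  piece_root : ∀ ω l, piece ω l ⊆ root ω
  cover : ∀ ω, root ω ⊆ Finset.univ.biUnion (piece ω)

attribute [instance] Expt.iΩ Expt.iΛ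

/-- the potential: mean of the sum of the square roots of the sizes of the pieces -/
noncomputable def Expt.pot {A : Finset (Finset ℕ)} (E : Expt A) : ℝ :=
  ∑ ω, E.w ω * ∑ l, Real.sqrt ((E.piece ω l).card : ℝ)

open Classical in
/-- the probability that at least `m` pieces have size at least `v` -/
noncomputable def Expt.many {A : Finset (Finset ℕ)} (E : Expt A) (m : ℕ) (v : ℝ) : ℝ :=
  ∑ ω, E.w ω *
    (if m ≤ (Finset.univ.filter fun l => v ≤ ((E.piece ω l).card : ℝ)).card then 1 else 0)

end Pool.Agent.TH83.SQ
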