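import Pool.Agent.TH828.SQ1822
import Pool.Agent.TH959.SQ1824
import Pool.Agent.TH720.SQ1823

/-!
The ingredients of the induction for sums with dilates (proved by helper828, helper959, helper720).
-/

set_option autoImplicit false

namespace Pool.Agent.TH83.SQ

open Finset
open scoped Pointwise Classical

theorem tau_insert {p : ℕ} {P : Finset ℕ} (hp : p ∉ P) (X B : Finset ℤ) :
    tau (insert p P) X B = (tau P X B + tau P (dil p X) B) / 2 :=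
  Pool.Agent.TH959.SQ.tau_insert hp X B

theorem caseI {p : ℕ} (hp : p.Prime) (P : Finset ℕ) (X B : Finset ℤ) (I : ℕ) (x₀ : ℤ)
    (hx₀ : x₀ ∈ X) (U : Finset ℤ) (hU : U ⊆ B) (hUn : U.Nonempty)
    (hUi : ∀ t ∈ U, ∀ t' ∈ U, ((p : ℤ) ^ (I + 1)) ∣ t - t' → t = t') :
    Real.log U.card + (∑ t ∈ U, tau P (dil p (cls ((p : ℤ) ^ I) X x₀))
      (cls ((p : ℤ) ^ (I + 1)) B t)) / U.card ≤ tau P (dil p X) B :=
  Pool.Agent.TH959.SQ.caseI hp P X B I x₀ hx₀ U hU hUn hUi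

theorem caseIIa {p : ℕ} (hp : p.Prime) (P : Finset ℕ) (hP : ∀ q ∈ P, q.Prime ∧ q ≠ p)
    (X B : Finset ℤ) (I : ℕ) (T : Finset ℤ) (hT : T ⊆ X) (hTn : T.Nonempty)
    (hTi : ∀ t ∈ T, ∀ t' ∈ T, ((p : ℤ) ^ I) ∣ t - t' → t = t') (b₀ : ℤ) (hb₀ : b₀ ∈ B) :
    Real.log T.card + (∑ t ∈ T, tau P (cls ((p : ℤ) ^ I) X t) (cls ((p : ℤ) ^ I) B b₀)) / T.card ≤
      tau P X B :=
  Pool.Agent.TH959.SQ.caseIIa hp P hP X B I T hT hTn hTi b₀ hb₀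

theorem caseIIb {p : ℕ} (hp : p.Prime) (P : Finset ℕ) (hP : ∀ q ∈ P, q.Prime ∧ q < p)
    (X B : Finset ℤ) (I : ℕ) (T : Finset ℤ) (hT : T ⊆ X) (hTn : T.Nonempty)
    (hTi : ∀ t ∈ T, ∀ t' ∈ T, ((p : ℤ) ^ I) ∣ t - t' → t = t')
    (U : Finset ℤ) (hU : U ⊆ B) (hUn : U.Nonempty)
    (hUi : ∀ t ∈ U, ∀ t' ∈ U, ((p : ℤ) ^ I) ∣ t - t' → t = t')
    (β : ℝ) (hβ0 : 0 ≤ β) (hβ : 2 * ((T.card : ℝ) * U.card) ^ 2 ≤ β * P.card) :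
    (1 - β) * (Real.log T.card + Real.log U.card) +
      (∑ t ∈ T, ∑ v ∈ U, tau P (cls ((p : ℤ) ^ I) X t) (cls ((p : ℤ) ^ I) B v)) /
        (T.card * U.card) ≤ tau P X B :=
  Pool.Agent.TH828.SQ1822.caseIIb hp P hP X B I T hT hTn hTi U hU hUn hUi β hβ0 hβ

end Pool.Agent.TH83.SQ
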